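import Pool.Agent.Lib.MP_6bc78b_nt.GP.H52.Kern

/-! Project GP5, module LFTR, part 1: the real part of the main coefficient. -/

set_option autoImplicit false

open Complex Filter Topology MeasureTheory Set

namespace Pool.Agent.Lib.MP_6bc78b_nt.GP.H79

open Pool.Agent.Lib.MP_6bc78b_nt.MS Pool.Agent.Lib.MP_6bc78b_nt.MS.P1
  Pool.Agent.Lib.MP_6bc78b_nt.GP.H52

/-- the numerator of the kernel is almost real -/
theorem nf_sub {δ t : ℝ} (hδ : 0 ≤ δ) (ht : 0 ≤ t) :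
    ‖nf δ t - ((Real.exp (-(δ * t)) : ℝ) : ℂ)‖ ≤ δ := by
  have h : nf δ t = ((Real.exp (-(δ * t)) : ℝ) : ℂ) * Complex.exp (I * ((-(δ / 2) : ℝ) : ℂ)) := by
    unfold nf
    rw [one_sub_sl, Complex.ofReal_exp, ← Complex.exp_add]
    congr 1
    have hI : I ^ 2 = -1 := Complex.I_sq
    push_cast
    linear_combination (δ : ℂ) * t * hI
  have h2 : nf δ t - ((Real.exp (-(δ * t)) : ℝ) : ℂ) =
      ((Real.exp (-(δ * t)) : ℝ) : ℂ) * (Complex.exp (I * ((-(δ / 2) : ℝ) : ℂ)) - 1) := by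
    rw [h]; ring
  rw [h2, norm_mul, Complex.norm_real, Real.norm_of_nonneg (Real.exp_pos _).le]
  have h3 : Real.exp (-(δ * t)) ≤ 1 := Real.exp_le_one_iff.2 (by
    have := mul_nonneg hδ ht
    linarith)
  have h4 : ‖Complex.exp (I * ((-(δ / 2) : ℝ) : ℂ)) - 1‖ ≤ ‖(-(δ / 2) : ℝ)‖ :=
    Real.norm_exp_I_mul_ofReal_sub_one_le
  rw [Real.norm_eq_abs, abs_neg, abs_of_nonneg (by linarith)] at h4
  calc Real.exp (-(δ * t)) * ‖Complex.exp (I * ((-(δ / 2) : ℝ) : ℂ)) - 1‖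
      ≤ 1 * (δ / 2) := mul_le_mul h3 h4 (norm_nonneg _) (by norm_num)
    _ ≤ δ := by linarith

/-- the kernel is almost real -/
theorem kf_sub {T δ t : ℝ} (hT : 0 < T) (hδ : 0 ≤ δ) (hδ2 : δ ≤ 2 / T) (ht : T ≤ t) :
    ‖kf δ t - ((Real.exp (-(δ * t)) : ℝ) : ℂ)‖ ≤ 3 / T := by
  have ht0 : 0 < t := by linarith
  have h1 := df_norm_ge t
  have h2 : kf δ t - ((Real.exp (-(δ * t)) : ℝ) : ℂ) =
      (nf δ t - ((Real.exp (-(δ * t)) : ℝ) : ℂ)) + kf δ t * (1 - df t) := by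
    unfold kf
    field_simp [df_ne t]
    ring
  have h3 : ‖1 - df t‖ ≤ 1 / T := by
    rw [df_eq, sub_sub_cancel, norm_mul, Complex.norm_real, Complex.norm_I, mul_one,
      Real.norm_of_nonneg (Real.exp_pos _).le, Real.exp_neg, one_div]
    apply inv_anti₀ hT
    have h4 := Real.add_one_le_exp (Real.pi * t)
    have h5 := Real.pi_gt_three
    nlinarith
  rw [h2]
  refine (norm_add_le _ _).trans ?_
  rw [norm_mul]
  have h6 : ‖kf δ t‖ * ‖1 - df t‖ ≤ 1 * (1 / T) :=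
    mul_le_mul (kf_norm hδ ht0.le) h3 (norm_nonneg _) (by norm_num)
  have h7 := (nf_sub hδ ht0.le).trans hδ2
  have h8 : 3 / T = 2 / T + 1 * (1 / T) := by ring
  rw [h8]
  exact add_le_add h7 h6

theorem exp_ge {x : ℝ} (h : x ≤ 4) : 1 / 60 ≤ Real.exp (-x) := by
  have h2 : Real.exp (-4) ≤ Real.exp (-x) := Real.exp_le_exp.2 (by linarith)
  have h3 : (1 : ℝ) / 60 ≤ Real.exp (-4) := by
    rw [Real.exp_neg, one_div]
    apply inv_anti₀ (Real.exp_pos _)
    have h4 : Real.exp 4 = Real.exp 1 ^ 4 := by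
      rw [← Real.exp_nat_mul]; norm_num
    rw [h4]
    have h5 := Real.exp_one_lt_d9.le
    calc Real.exp 1 ^ 4 ≤ 2.7182818286 ^ 4 := pow_le_pow_left₀ (Real.exp_pos _).le h5 4
      _ ≤ 60 := by norm_num
  linarith

/-- The real part of the main coefficient. -/
theorem re_kf_w0 (hO : OMDStatement) (A B : ℝ) : ∃ T₁ : ℝ, 100 < T₁ ∧ ∀ T : ℝ, T₁ ≤ T →
    ∀ t δ : ℝ, T ≤ t → t ≤ 2 * T → 0 ≤ δ → δ ≤ 2 / T →
    Real.log T ^ 2 / 360 ≤ (kf δ t * w0 A B t).re := by
  obtain ⟨C₀, T₀, hC₀, hT₀, hcoef⟩ := coef hO A B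
  obtain ⟨C, hC, hom⟩ := hO
  have hA := abs_nonneg A
  have hB := abs_nonneg B
  set K : ℝ := 2 + 2 * |A| + |B| with hK
  set L₀ : ℝ := 1000 * (K + 1) with hL₀
  refine ⟨max T₀ (max (Real.exp L₀) (max 20000 C)), lt_of_lt_of_le hT₀ (le_max_left _ _), ?_⟩
  intro T hT t δ ht1 ht2 hδ0 hδ2
  have hTa : T₀ ≤ T := le_trans (le_max_left _ _) hT
  have hTb : Real.exp L₀ ≤ T := le_trans (le_trans (le_max_left _ _) (le_max_right _ _)) hT
  have hTc : 20000 ≤ T := le_trans (le_trans (le_trans (le_max_left _ _) (le_max_right _ _))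
    (le_max_right _ _)) hT
  have hTd : C ≤ T := le_trans (le_trans (le_trans (le_max_right _ _) (le_max_right _ _))
    (le_max_right _ _)) hT
  have hT0 : 0 < T := by linarith
  obtain ⟨-, hw0, -, -, -, -⟩ := hcoef T hTa
  set L := Real.log T with hL
  have hLL : L₀ ≤ L := by
    rw [hL, ← Real.log_exp L₀]
    exact Real.log_le_log (Real.exp_pos _) hTb
  have hL3 : 3000 ≤ L := by rw [hL₀] at hLL; nlinarith
  have hL0 : 0 < L := by linarith
  have hpi := Real.pi_gt_three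
  have hpi4 := Real.pi_le_four
  set lam : ℝ := Real.log (t / (2 * Real.pi)) with hlam
  have hlam1 : L - 2.1 ≤ lam := by
    have h5 : T / 8 ≤ t / (2 * Real.pi) := by
      rw [div_le_div_iff₀ (by norm_num) (by positivity)]
      nlinarith
    have h6 := Real.log_le_log (by positivity) h5
    rw [Real.log_div hT0.ne' (by norm_num)] at h6
    have h7 : Real.log 8 ≤ 2.1 := by
      rw [show (8 : ℝ) = 2 ^ 3 by norm_num, Real.log_pow]
      have := Real.log_two_lt_d9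
      push_cast
      linarith
    linarith
  have hlam2 : lam ≤ L := by
    apply Real.log_le_log (div_pos (by linarith) (by positivity))
    rw [div_le_iff₀ (by positivity)]
    nlinarith
  have ht1' : 1 ≤ t := by linarith
  have hCt : C / t ≤ 1 := by
    rw [div_le_one (by linarith)]
    linarith
  obtain ⟨o1, o2, -⟩ := hom t ht1'
  have o1' : ‖om (sl t) - (lam : ℂ)‖ ≤ 1 := by
    have : ‖om (sl t) - (lam : ℂ)‖ ≤ C / t := o1
    linarith
  have o2' : ‖deriv om (sl t)‖ ≤ 1 := by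
    have : ‖deriv om (sl t)‖ ≤ C / t := o2
    linarith
  have nlam : ‖(lam : ℂ)‖ ≤ L := by
    rw [Complex.norm_real, Real.norm_of_nonneg (by linarith)]
    exact hlam2
  have nA : ‖(A : ℂ)‖ = |A| := by rw [Complex.norm_real, Real.norm_eq_abs]
  have nB : ‖(B : ℂ)‖ = |B| := by rw [Complex.norm_real, Real.norm_eq_abs]
  have nom : ‖om (sl t)‖ ≤ L + 1 := by
    have h : om (sl t) = (om (sl t) - (lam : ℂ)) + (lam : ℂ) := by ring
    rw [h]
    refine (norm_add_le _ _).trans ?_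
    linarith
  -- the coefficient is almost real
  have hw : ‖w0 A B t - ((lam ^ 2 / 2 : ℝ) : ℂ)‖ ≤ K * L := by
    have h : w0 A B t - ((lam ^ 2 / 2 : ℝ) : ℂ) =
        (om (sl t) - (lam : ℂ)) * (om (sl t) + (lam : ℂ)) / 2 - deriv om (sl t) / 2 -
          A * om (sl t) - B := by
      unfold w0
      push_cast
      ring
    have h1 : ‖(om (sl t) - (lam : ℂ)) * (om (sl t) + (lam : ℂ)) / 2‖ ≤ 1 * (2 * L + 1) / 2 := by
      rw [norm_div, norm_mul]
      have h2 : ‖om (sl t) + (lam : ℂ)‖ ≤ 2 * L + 1 := by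
        refine (norm_add_le _ _).trans ?_
        linarith
      have h3 := mul_le_mul o1' h2 (norm_nonneg _) (by norm_num)
      simp only [Complex.norm_ofNat]
      linarith
    have h2 : ‖deriv om (sl t) / 2‖ ≤ 1 / 2 := by
      rw [norm_div]
      simp only [Complex.norm_ofNat]
      linarith
    have h3 : ‖(A : ℂ) * om (sl t)‖ ≤ |A| * (L + 1) := by
      rw [norm_mul, nA]
      exact mul_le_mul_of_nonneg_left nom hA
    rw [h]
    have h4 := norm_sub_le ((om (sl t) - (lam : ℂ)) * (om (sl t) + (lam : ℂ)) / 2 -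
      deriv om (sl t) / 2 - A * om (sl t)) (B : ℂ)
    have h5 := norm_sub_le ((om (sl t) - (lam : ℂ)) * (om (sl t) + (lam : ℂ)) / 2 -
      deriv om (sl t) / 2) (A * om (sl t))
    have h6 := norm_sub_le ((om (sl t) - (lam : ℂ)) * (om (sl t) + (lam : ℂ)) / 2)
      (deriv om (sl t) / 2)
    rw [nB] at h4
    have h7 : |A| ≤ |A| * L := le_mul_of_one_le_right hA (by linarith)
    have h8 : |B| ≤ |B| * L := le_mul_of_one_le_right hB (by linarith)
    rw [hK]
    nlinarith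
  have hk := kf_sub hT0 hδ0 hδ2 ht1
  have hw0t := hw0 t ⟨by linarith, by linarith⟩
  set e : ℝ := Real.exp (-(δ * t)) with he
  have he0 : 0 < e := Real.exp_pos _
  have he1 : e ≤ 1 := Real.exp_le_one_iff.2 (by
    have := mul_nonneg hδ0 (by linarith : 0 ≤ t)
    linarith)
  have he2 : 1 / 60 ≤ e := by
    apply exp_ge
    calc δ * t ≤ 2 / T * (2 * T) := mul_le_mul hδ2 ht2 (by linarith) (by positivity)
      _ = 4 := by field_simp; norm_num
  -- comparison
  have hdiff : ‖kf δ t * w0 A B t - ((e * (lam ^ 2 / 2) : ℝ) : ℂ)‖ ≤ 9 * L ^ 2 / T + K * L := by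
    have h : kf δ t * w0 A B t - ((e * (lam ^ 2 / 2) : ℝ) : ℂ) =
        (kf δ t - (e : ℂ)) * w0 A B t + (e : ℂ) * (w0 A B t - ((lam ^ 2 / 2 : ℝ) : ℂ)) := by
      push_cast
      ring
    rw [h]
    refine (norm_add_le _ _).trans ?_
    rw [norm_mul, norm_mul, Complex.norm_real, Real.norm_of_nonneg he0.le]
    have h1 : ‖kf δ t - (e : ℂ)‖ * ‖w0 A B t‖ ≤ 3 / T * (3 * L ^ 2) :=
      mul_le_mul hk hw0t (norm_nonneg _) (by positivity)
    have h2 : e * ‖w0 A B t - ((lam ^ 2 / 2 : ℝ) : ℂ)‖ ≤ 1 * (K * L) :=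
      mul_le_mul he1 hw (norm_nonneg _) (by norm_num)
    have h3 : 3 / T * (3 * L ^ 2) = 9 * L ^ 2 / T := by ring
    linarith
  have hre : e * (lam ^ 2 / 2) - ‖kf δ t * w0 A B t - ((e * (lam ^ 2 / 2) : ℝ) : ℂ)‖ ≤
      (kf δ t * w0 A B t).re := by
    have h1 := Complex.abs_re_le_norm (kf δ t * w0 A B t - ((e * (lam ^ 2 / 2) : ℝ) : ℂ))
    rw [Complex.sub_re, Complex.ofReal_re] at h1
    have h2 := neg_abs_le ((kf δ t * w0 A B t).re - e * (lam ^ 2 / 2))
    linarith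
  have h9 : 9 * L ^ 2 / T ≤ L ^ 2 / 2000 := by
    rw [div_le_div_iff₀ hT0 (by norm_num)]
    have : 0 ≤ L ^ 2 := by positivity
    nlinarith
  have h10 : 1 / 60 * (((L - 2.1) ^ 2) / 2) ≤ e * (lam ^ 2 / 2) := by
    apply mul_le_mul he2 _ (by positivity) he0.le
    have := pow_le_pow_left₀ (by linarith) hlam1 2
    linarith
  have h11 : K * L ≤ L ^ 2 / 1000 - L := by
    have : K + 1 ≤ L / 1000 := by rw [hL₀] at hLL; linarith
    nlinarith
  nlinarith

end Pool.Agent.Lib.MP_6bc78b_nt.GP.H79
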