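import Pool.Agent.Lib.MP_6bc78b_nt.GP.H52.Lft
import Pool.Agent.Lib.MP_6bc78b_nt.GP.H6.Defs5
import Pool.Agent.Lib.MP_6bc78b_nt.GP.H79.Kre

/-! Project GP5, module LFTR: lower bound for the real part on the left line (after
`GP/H52/Lft.lean`). -/

set_option autoImplicit false

open Complex Filter Topology MeasureTheory Set

namespace Pool.Agent.Lib.MP_6bc78b_nt.GP.H79

open Pool.Agent.Lib.MP_6bc78b_nt.MS Pool.Agent.Lib.MP_6bc78b_nt.MS.P1
  Pool.Agent.Lib.MP_6bc78b_nt.GP.H52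

/-- LFTR. -/
theorem lftr (hF : FEQStatement) (hG : GSLStatement) (hO : OMDStatement) (hD : DX2Statement) :
    LFTRStatement := by
  intro A B
  obtain ⟨C, T₀, hC, hT₀, hcoef⟩ := coef hO A B
  obtain ⟨T₁, hT₁, hre⟩ := re_kf_w0 hO A B
  obtain ⟨CD, hCD, hdir⟩ := dir_avg hG
  obtain ⟨hD1, -, ⟨CB, hCB, hbn⟩⟩ := hD 0 0
  set C' : ℝ := C + 12 with hC'
  set C3 : ℝ := (2 + CB) * CD with hC3
  have hC30 : 0 < C3 := by positivity
  refine ⟨1 / 3000, max 2 (5400 * C3), max T₁ (max T₀ (Real.exp (720 * C3 * (C' + 8)))),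
    by norm_num, le_trans (by norm_num) (le_max_left _ _),
    lt_of_lt_of_le (by linarith) (le_max_left _ _), ?_⟩
  intro T t δ H hT' ht1 ht2 hδ1 hδ2 hH hHT
  have hT : max T₀ (Real.exp (720 * C3 * (C' + 8))) ≤ T := le_trans (le_max_right _ _) hT'
  have hT1 : T₁ ≤ T := le_trans (le_max_left _ _) hT'
  have hTT : T₀ ≤ T := le_trans (le_max_left _ _) hT
  have hT0 : 0 < T := by linarith
  obtain ⟨hL1, hw0, hw1, hl0, hl1, hlow⟩ := hcoef T hTT
  have hLbig : 720 * C3 * (C' + 8) ≤ Real.log T := by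
    rw [← Real.log_exp (720 * C3 * (C' + 8))]
    exact Real.log_le_log (Real.exp_pos _) (le_trans (le_max_right _ _) hT)
  set L := Real.log T with hL
  have hL0 : 0 < L := by linarith
  have hH2 : 2 ≤ H := le_trans (le_max_left _ _) hH
  have hH3 : 5400 * C3 ≤ H := le_trans (le_max_right _ _) hH
  have hH0 : 0 < H := by linarith
  have hδ0 : 0 ≤ δ := le_trans (by positivity) hδ1
  have htm : t ∈ Icc (T / 2) (4 * T) := ⟨by linarith, by linarith⟩
  have hat : T / 2 < t := by linarith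
  have htb : t < 4 * T := by linarith
  -- the three functions
  set M : ℝ := 3 * L ^ 2 with hM
  set m : ℝ := C' * L ^ 2 / T with hm
  have hM0 : 0 ≤ M := by positivity
  have hm0 : 0 ≤ m := by positivity
  have hpos : ∀ x ∈ Icc (T / 2) (4 * T), 0 < x := fun x hx => by linarith [hx.1]
  have hk : ∀ y ∈ Icc (T / 2) (4 * T), ‖kf δ y‖ ≤ 1 := fun y hy => kf_norm hδ0 (hpos y hy).le
  have hmeq : 4 / T * (3 * L ^ 2) + C * L ^ 2 / T = m := by rw [hm, hC']; ring
  have hL2 : (1 : ℝ) ≤ L ^ 2 := one_le_pow₀ hL1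
  -- bounds for the products
  have W0b : ∀ y ∈ Icc (T / 2) (4 * T), ‖kf δ y * w0 A B y‖ ≤ M := fun y hy => by
    rw [norm_mul]
    exact (mul_le_of_le_one_left (norm_nonneg _) (hk y hy)).trans (hw0 y hy)
  have W1b : ∀ y ∈ Icc (T / 2) (4 * T), ‖kf δ y * w1 A y‖ ≤ M := fun y hy => by
    rw [norm_mul]
    exact (mul_le_of_le_one_left (norm_nonneg _) (hk y hy)).trans (hw1 y hy)
  have W2b : ∀ y ∈ Icc (T / 2) (4 * T), ‖kf δ y‖ ≤ M := fun y hy => by
    have := hk y hy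
    rw [hM]
    linarith
  have W0l : ∀ y ∈ Icc (T / 2) (4 * T), ‖kf δ y * w0 A B y - kf δ t * w0 A B t‖ ≤
      m * |y - t| := fun y hy => by
    have := kf_mul_lip hT0 hδ0 hδ2 hw0 hl0 hy htm
    rwa [hmeq] at this
  have W1l : ∀ y ∈ Icc (T / 2) (4 * T), ‖kf δ y * w1 A y - kf δ t * w1 A t‖ ≤
      m * |y - t| := fun y hy => by
    have := kf_mul_lip hT0 hδ0 hδ2 hw1 hl1 hy htm
    rwa [hmeq] at this
  have W2l : ∀ y ∈ Icc (T / 2) (4 * T), ‖kf δ y - kf δ t‖ ≤ m * |y - t| := fun y hy => by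
    refine (kf_lip hT0 hδ0 hδ2 hy htm).trans ?_
    apply mul_le_mul_of_nonneg_right _ (abs_nonneg _)
    rw [← hmeq]
    have h1 : 4 / T * 1 ≤ 4 / T * (3 * L ^ 2) :=
      mul_le_mul_of_nonneg_left (by linarith) (by positivity)
    have h2 : 0 ≤ C * L ^ 2 / T := by positivity
    linarith
  have w0c : ContinuousOn (w0 A B) (Icc (T / 2) (4 * T)) := fun x hx =>
    (hasDeriv_w0 A B (hpos x hx)).continuousAt.continuousWithinAt
  have w1c : ContinuousOn (w1 A) (Icc (T / 2) (4 * T)) := fun x hx =>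
    (hasDeriv_w1 A (hpos x hx)).continuousAt.continuousWithinAt
  have kc : ContinuousOn (kf δ) (Icc (T / 2) (4 * T)) := (kf_cont δ).continuousOn
  -- coefficients
  have c0 : ∀ n : ℕ, n ≠ 0 → ‖LSER.cast one n‖ ≤ 1 * (1 + Real.log n) ^ 2 := by
    intro n hn
    have hn1 : (1 : ℝ) ≤ n := by exact_mod_cast Nat.one_le_iff_ne_zero.2 hn
    rw [LSER.cast_one hn]
    have := Real.log_nonneg hn1
    simp only [Pi.one_apply, norm_one]
    nlinarith
  have c1 : ∀ n : ℕ, n ≠ 0 → ‖LSER.cast lg n‖ ≤ 1 * (1 + Real.log n) ^ 2 := by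
    intro n hn
    have hn1 : (1 : ℝ) ≤ n := by exact_mod_cast Nat.one_le_iff_ne_zero.2 hn
    have h0 := Real.log_nonneg hn1
    have : LSER.cast lg n = ((Real.log n : ℝ) : ℂ) := by
      unfold LSER.cast lg
      rw [ArithmeticFunction.log_apply]
    rw [this, Complex.norm_real, Real.norm_of_nonneg h0]
    nlinarith
  have c2 : ∀ n : ℕ, n ≠ 0 → ‖((bn 0 0 n : ℝ) : ℂ)‖ ≤ CB * (1 + Real.log n) ^ 2 := by
    intro n _
    rw [Complex.norm_real, Real.norm_eq_abs]
    exact hbn n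
  obtain ⟨i0, d0⟩ := hdir (LSER.cast one) 1 (by norm_num) c0 (fun y => kf δ y * w0 A B y)
    (T / 2) (4 * T) t H M m hat htb hH2 hM0 hm0 (kc.mul w0c) W0b W0l
  obtain ⟨i1, d1⟩ := hdir (LSER.cast lg) 1 (by norm_num) c1 (fun y => kf δ y * w1 A y)
    (T / 2) (4 * T) t H M m hat htb hH2 hM0 hm0 (kc.mul w1c) W1b W1l
  obtain ⟨i2, d2⟩ := hdir (fun n => ((bn 0 0 n : ℝ) : ℂ)) CB hCB.le c2 (kf δ)
    (T / 2) (4 * T) t H M m hat htb hH2 hM0 hm0 kc W2b W2l
  set R : ℝ := er (T / 2) (4 * T) t H M m + M * (H * Real.exp (1 - 2 / 5 * H)) with hR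
  set I0 := ∫ y in (T / 2)..(4 * T), kf δ y * w0 A B y *
    LSeries (LSER.cast one) ((3 / 2 : ℝ) - y * I) * gf t H y with hI0
  set I1 := ∫ y in (T / 2)..(4 * T), kf δ y * w1 A y *
    LSeries (LSER.cast lg) ((3 / 2 : ℝ) - y * I) * gf t H y with hI1
  set I2 := ∫ y in (T / 2)..(4 * T), kf δ y *
    LSeries (fun n => ((bn 0 0 n : ℝ) : ℂ)) ((3 / 2 : ℝ) - y * I) * gf t H y with hI2
  have e0 : LSER.cast one 1 = 1 := by rw [LSER.cast_one one_ne_zero]; simp
  have e1 : LSER.cast lg 1 = 0 := by simp [LSER.cast, lg]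
  have e2 : ((bn 0 0 1 : ℝ) : ℂ) = 0 := by rw [bn_one]; simp
  rw [e0, mul_one] at d0
  rw [e1, mul_zero, zero_mul, sub_zero] at d1
  rw [e2, mul_zero, zero_mul, sub_zero] at d2
  -- the integral
  have hIL : (∫ y in (T / 2)..(4 * T), DF A B (-(1 / 2) + y * I) * om0 δ (-(1 / 2) + y * I) *
      GH H t (-(1 / 2) + y * I)) = I0 - I1 + I2 := by
    rw [hI0, hI1, hI2, ← intervalIntegral.integral_sub i0 i1,
      ← intervalIntegral.integral_add (i0.sub i1) i2]
    refine intervalIntegral.integral_congr fun y hy => ?_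
    rw [uIcc_of_le (by linarith)] at hy
    have hy0 := hpos y hy
    have hre : 1 < (sl y).re := by simp [sl]; norm_num
    have him : (sl y).im < 0 := by simp [sl]; exact hy0
    have hz : riemannZeta (sl y) ≠ 0 := riemannZeta_ne_zero_of_one_lt_re hre
    have hf := hF A B δ (sl y) (by linarith) him hz
    have h1 := LSER.hone hre
    have h2 := LSER.hlg hre
    have h3 := hD1 (sl y) hre
    unfold LS at h1 h2
    have hgh : GH H t (-(1 / 2) + y * I) = gf t H y := by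
      unfold GH gf
      congr 2
      ring
    have hdf : FF (sl y) - deriv (deriv riemannZeta) (sl y) / 2 = DF 0 0 (sl y) := by
      unfold DF F0
      push_cast
      ring
    have hk2 : Complex.exp (δ * I * (1 - sl y)) / (1 + Complex.exp (Real.pi * I * (1 - sl y))) =
        kf δ y := rfl
    have hw0' : om (sl y) ^ 2 / 2 - deriv om (sl y) / 2 - A * om (sl y) - B = w0 A B y := rfl
    have hw1' : om (sl y) - A = w1 A y := rfl
    rw [hk2, hw0', hw1'] at hf
    rw [← one_sub_sl, hf, one_sub_sl, hgh]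
    have hs : ((3 / 2 : ℝ) : ℂ) - y * I = sl y := rfl
    rw [hs]
    have h1' : LSeries (LSER.cast one) (sl y) = riemannZeta (sl y) := h1
    have h2' : LSeries (LSER.cast lg) (sl y) = -deriv riemannZeta (sl y) := h2
    rw [h1', h2', h3, ← hdf]
    ring
  -- the bound from below
  have hRle : R ≤ (C' + 8) * (L * H) + M * (H * Real.exp (1 - 2 / 5 * H)) := by
    have := er_le hT0 ht1 ht2 hH0.le hL1 hHT (by positivity : 0 ≤ C') hm
    rw [hR]
    linarith
  have hexp : Real.exp (1 - 2 / 5 * H) ≤ 1 / (2160 * C3) := by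
    have h1 := Real.add_one_le_exp (2 / 5 * H - 1)
    have h2 : Real.exp (1 - 2 / 5 * H) = (Real.exp (2 / 5 * H - 1))⁻¹ := by
      rw [← Real.exp_neg]; congr 1; ring
    rw [h2, one_div]
    apply inv_anti₀ (by positivity)
    linarith
  have hC3R : C3 * R ≤ L ^ 2 * H / 720 + L ^ 2 * H / 720 := by
    have h1 : C3 * R ≤ C3 * ((C' + 8) * (L * H)) + C3 * (M * (H * Real.exp (1 - 2 / 5 * H))) := by
      rw [← mul_add]
      exact mul_le_mul_of_nonneg_left hRle hC30.le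
    have h2 : C3 * ((C' + 8) * (L * H)) ≤ L ^ 2 * H / 720 := by
      have h3 : 720 * C3 * (C' + 8) * (L * H) ≤ L * (L * H) :=
        mul_le_mul_of_nonneg_right hLbig (by positivity)
      nlinarith
    have h4 : C3 * (M * (H * Real.exp (1 - 2 / 5 * H))) ≤ L ^ 2 * H / 720 := by
      have h5 : M * (H * Real.exp (1 - 2 / 5 * H)) ≤ M * (H * (1 / (2160 * C3))) :=
        mul_le_mul_of_nonneg_left (mul_le_mul_of_nonneg_left hexp hH0.le) hM0
      refine (mul_le_mul_of_nonneg_left h5 hC30.le).trans (le_of_eq ?_)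
      rw [hM]
      field_simp
      norm_num
    linarith
  have hmain : L ^ 2 * H / 180 ≤
      (kf δ t * w0 A B t * ((H * Real.sqrt (2 * Real.pi) : ℝ) : ℂ)).re := by
    rw [Complex.re_mul_ofReal]
    have h1 := hre T hT1 t δ ht1 ht2 hδ0 hδ2
    have h3 : 2 ≤ Real.sqrt (2 * Real.pi) := by
      apply Real.le_sqrt_of_sq_le
      have := Real.pi_gt_three
      nlinarith
    calc L ^ 2 * H / 180 = L ^ 2 / 360 * (H * 2) := by ring
      _ ≤ (kf δ t * w0 A B t).re * (H * Real.sqrt (2 * Real.pi)) :=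
          mul_le_mul h1 (mul_le_mul_of_nonneg_left h3 hH0.le) (by positivity)
            (le_trans (by positivity) h1)
  set mn := kf δ t * w0 A B t * ((H * Real.sqrt (2 * Real.pi) : ℝ) : ℂ) with hmn
  have hsum : mn.re ≤ (I0 - I1 + I2).re + C3 * R := by
    have e : mn = (I0 - I1 + I2) - ((I0 - mn) - I1 + I2) := by ring
    have h1 : ‖(I0 - mn) - I1 + I2‖ ≤ 1 * CD * R + 1 * CD * R + CB * CD * R := by
      refine (norm_add_le _ _).trans (add_le_add ((norm_sub_le _ _).trans (add_le_add d0 d1)) d2)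
    have h2 : 1 * CD * R + 1 * CD * R + CB * CD * R = C3 * R := by rw [hC3]; ring
    have h3 : mn.re = (I0 - I1 + I2).re - ((I0 - mn) - I1 + I2).re := by
      rw [← Complex.sub_re, ← e]
    have h4 := (abs_le.1 (Complex.abs_re_le_norm ((I0 - mn) - I1 + I2))).1
    linarith
  have hge : L ^ 2 * H / 360 ≤ (I0 - I1 + I2).re := by linarith
  unfold IL
  rw [hIL]
  have hpi := Real.pi_gt_three
  have hpi4 := Real.pi_le_four
  have hn : (1 / (2 * Real.pi) : ℂ) = ((1 / (2 * Real.pi) : ℝ) : ℂ) := by push_cast; ring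
  rw [hn, Complex.re_ofReal_mul]
  have h8 : (1 : ℝ) / 8 ≤ 1 / (2 * Real.pi) := by
    apply one_div_le_one_div_of_le (by positivity)
    linarith
  have h9 : 0 ≤ L ^ 2 * H := by positivity
  calc 1 / 3000 * H * L ^ 2 ≤ 1 / 8 * (L ^ 2 * H / 360) := by nlinarith
    _ ≤ 1 / (2 * Real.pi) * (I0 - I1 + I2).re :=
        mul_le_mul h8 hge (by positivity) (by positivity)

end Pool.Agent.Lib.MP_6bc78b_nt.GP.H79
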