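import Pool.Agent.Lib.MP_6bc78b_nt.GP.Iface
import Pool.Agent.Lib.MP_6bc78b_nt.H11.Window

/-! DX1: the triple pole of `ζ'²/ζ - F₀` at `1` is removed by suitable `A`, `B` (RH). -/

set_option autoImplicit false

open Complex Filter Topology

namespace Pool.Agent.Lib.MP_6bc78b_nt.GP.H79

open Pool.Agent.Lib.MP_6bc78b_nt.GP Pool.Agent.Lib.MP_6bc78b_nt.H11

lemma HP_open : IsOpen HP := isOpen_lt continuous_const Complex.continuous_re

lemma one_mem_HP : (1 : ℂ) ∈ HP := by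
  show (1 : ℝ) / 2 < (1 : ℂ).re
  norm_num

lemma Z1_conj (s : ℂ) :
    riemannZeta₁ ((starRingEnd ℂ) s) = (starRingEnd ℂ) (riemannZeta₁ s) := by
  by_cases h : s = 1
  · subst h; simp
  · have h2 : (starRingEnd ℂ) s ≠ 1 := by
      intro h3
      apply h
      have := congrArg (starRingEnd ℂ) h3
      simpa using this
    have e1 : ∀ z : ℂ, z ≠ 1 → riemannZeta₁ z = (z - 1) * riemannZeta z := by
      intro z hz
      rw [riemannZeta_eq_inv_sub_mul hz, ← mul_assoc, mul_inv_cancel₀ (sub_ne_zero.mpr hz), one_mul]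
    rw [e1 _ h2, e1 _ h, riemannZeta_conj]
    simp

lemma deriv_conj_of {f : ℂ → ℂ} (hf : ∀ s, f ((starRingEnd ℂ) s) = (starRingEnd ℂ) (f s)) (s : ℂ) :
    deriv f ((starRingEnd ℂ) s) = (starRingEnd ℂ) (deriv f s) := by
  have h4 : ((starRingEnd ℂ) ∘ f ∘ (starRingEnd ℂ) : ℂ → ℂ) = f := by
    funext z
    simp only [Function.comp]
    rw [hf, Complex.conj_conj]
  have h := congrFun (deriv_conj_conj (f := f)) ((starRingEnd ℂ) s)
  rw [h4] at h
  simp only [Function.comp, Complex.conj_conj] at h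
  exact h

lemma real_of_conj {z : ℂ} (h : (starRingEnd ℂ) z = z) : ((z.re : ℝ) : ℂ) = z :=
  Complex.conj_eq_iff_re.mp h

/-- `Q = (s-1)² (F - F₀)`. -/
noncomputable def QQ (A B : ℂ) (s : ℂ) : ℂ :=
  (s - 1) * (deriv riemannZeta₁ s ^ 2 / riemannZeta₁ s) - deriv riemannZeta₁ s -
    (s - 1) * deriv (deriv riemannZeta₁) s / 2 + A * ((s - 1) * deriv riemannZeta₁ s) -
    A * riemannZeta₁ s - B * ((s - 1) * riemannZeta₁ s)

lemma Z1_ne (hRH : RiemannHypothesis) {s : ℂ} (hs : s ∈ HP) : riemannZeta₁ s ≠ 0 := by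
  by_cases h : s = 1
  · subst h; simp
  · intro h0
    apply zeta_ne_zero_of_RH hRH (s := s) hs
    rw [riemannZeta_eq_inv_sub_mul h, h0, mul_zero]

lemma dd1 : Differentiable ℂ (deriv riemannZeta₁) := differentiable_riemannZeta₁.deriv

lemma dd2 : Differentiable ℂ (deriv (deriv riemannZeta₁)) := dd1.deriv

lemma QQ_diff (hRH : RiemannHypothesis) (A B : ℂ) : DifferentiableOn ℂ (QQ A B) HP := by
  intro s hs
  apply DifferentiableAt.differentiableWithinAt
  have h1 : DifferentiableAt ℂ riemannZeta₁ s := differentiable_riemannZeta₁ s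
  have h2 := dd1 s
  have h3 := dd2 s
  have h4 := Z1_ne hRH hs
  have h5 : DifferentiableAt ℂ (fun z : ℂ => z - 1) s := by fun_prop
  unfold QQ
  exact (((((h5.mul ((h2.pow 2).div h1 h4)).sub h2).sub ((h5.mul h3).div_const 2)).add
    ((h5.mul h2).const_mul A)).sub (h1.const_mul A)).sub ((h5.mul h1).const_mul B)

lemma hasDerivAt_QQ (A B : ℂ) : HasDerivAt (QQ A B)
    (deriv riemannZeta₁ 1 ^ 2 - deriv (deriv riemannZeta₁) 1 -
      deriv (deriv riemannZeta₁) 1 / 2 - B) 1 := by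
  have h1 : HasDerivAt riemannZeta₁ (deriv riemannZeta₁ 1) 1 :=
    (differentiable_riemannZeta₁ 1).hasDerivAt
  have h2 : HasDerivAt (deriv riemannZeta₁) (deriv (deriv riemannZeta₁) 1) 1 := (dd1 1).hasDerivAt
  have h3 : HasDerivAt (deriv (deriv riemannZeta₁)) (deriv (deriv (deriv riemannZeta₁)) 1) 1 :=
    (dd2 1).hasDerivAt
  have h5 : HasDerivAt (fun z : ℂ => z - 1) 1 1 := (hasDerivAt_id (1 : ℂ)).sub_const 1
  have h4 : riemannZeta₁ 1 ≠ 0 := by simp
  have h := (((((h5.mul ((h2.pow 2).div h1 h4)).sub h2).sub ((h5.mul h3).div_const 2)).add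
    ((h5.mul h2).const_mul A)).sub (h1.const_mul A)).sub ((h5.mul h1).const_mul B)
  refine (h.congr_deriv ?_)
  simp only [Pi.div_apply, Pi.pow_apply, riemannZeta₁_one, sub_self, zero_mul, one_mul, add_zero, div_one, mul_one, one_pow]
  ring

/-- formulas away from `1`. -/
lemma DF_eq (hRH : RiemannHypothesis) (A B : ℝ) {s : ℂ} (hs : s ∈ HP) (h1 : s ≠ 1) :
    DF A B s = QQ A B s / (s - 1) ^ 2 := by
  have e : s - 1 ≠ 0 := sub_ne_zero.mpr h1
  have hz := riemannZeta_eq_inv_sub_mul h1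
  have hZ := Z1_ne hRH hs
  have hd : deriv riemannZeta s =
      - ((s - 1)⁻¹) ^ 2 * (riemannZeta₁ s) + (s - 1)⁻¹ * deriv riemannZeta₁ s :=
    deriv_riemannZeta_eq_neg_inv_sub_sq_mul_add h1
  have hdd : deriv (deriv riemannZeta) s =
      2 * ((s - 1)⁻¹) ^ 3 * riemannZeta₁ s - 2 * ((s - 1)⁻¹) ^ 2 * deriv riemannZeta₁ s +
        (s - 1)⁻¹ * deriv (deriv riemannZeta₁) s := by
    have hev : deriv riemannZeta =ᶠ[𝓝 s] fun z => - ((z - 1)⁻¹) ^ 2 * (riemannZeta₁ z) +
        (z - 1)⁻¹ * deriv riemannZeta₁ z := by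
      filter_upwards [isOpen_compl_singleton.mem_nhds h1] with z hz
      exact deriv_riemannZeta_eq_neg_inv_sub_sq_mul_add hz
    rw [hev.deriv_eq]
    have a1 : HasDerivAt riemannZeta₁ (deriv riemannZeta₁ s) s :=
      (differentiable_riemannZeta₁ s).hasDerivAt
    have a2 : HasDerivAt (deriv riemannZeta₁) (deriv (deriv riemannZeta₁) s) s :=
      (dd1 s).hasDerivAt
    have a5 : HasDerivAt (fun z : ℂ => z - 1) 1 s := (hasDerivAt_id s).sub_const 1
    have a6 := a5.inv e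
    have h := ((a6.pow 2).neg.mul a1).add (a6.mul a2)
    refine (HasDerivAt.deriv (h.congr_deriv ?_))
    simp only [Pi.inv_apply, Pi.pow_apply, Pi.neg_apply, Nat.add_one_sub_one, pow_one,
      Nat.cast_ofNat]
    field_simp
    ring
  unfold DF FF F0 QQ
  rw [hd, hdd, hz]
  field_simp
  ring

theorem dx1 : DX1Statement := by
  intro hRH
  have r1 : (starRingEnd ℂ) (deriv riemannZeta₁ 1) = deriv riemannZeta₁ 1 := by
    rw [← deriv_conj_of Z1_conj]; simp
  have r2 : (starRingEnd ℂ) (deriv (deriv riemannZeta₁) 1) = deriv (deriv riemannZeta₁) 1 := by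
    rw [← deriv_conj_of (deriv_conj_of Z1_conj)]; simp
  have q1 := real_of_conj r1
  have q2 := real_of_conj r2
  set a : ℝ := (deriv riemannZeta₁ 1).re with ha
  set b : ℝ := (deriv (deriv riemannZeta₁) 1).re with hb
  set A : ℝ := -a with hA
  set B : ℝ := a ^ 2 - 3 / 2 * b with hB
  have hQ0 : QQ A B 1 = 0 := by
    unfold QQ
    rw [← q1, hA]
    simp
  have hQ1 : HasDerivAt (QQ A B) 0 1 := by
    refine (hasDerivAt_QQ A B).congr_deriv ?_
    rw [← q1, ← q2, hB]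
    push_cast
    ring
  have hnh : HP ∈ 𝓝 (1 : ℂ) := HP_open.mem_nhds one_mem_HP
  have hds1 : DifferentiableOn ℂ (dslope (QQ A B) 1) HP :=
    (Complex.differentiableOn_dslope hnh).mpr (QQ_diff hRH A B)
  have hds2 : DifferentiableOn ℂ (dslope (dslope (QQ A B) 1) 1) HP :=
    (Complex.differentiableOn_dslope hnh).mpr hds1
  refine ⟨A, B, dslope (dslope (QQ A B) 1) 1, hds2, fun s hs h1 => ?_⟩
  have e : s - 1 ≠ 0 := sub_ne_zero.mpr h1
  rw [dslope_of_ne _ h1, slope_def_field, dslope_same, hQ1.deriv, dslope_of_ne _ h1,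
    slope_def_field, hQ0, DF_eq hRH A B hs h1]
  field_simp
  ring

end Pool.Agent.Lib.MP_6bc78b_nt.GP.H79
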