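import Pool.Agent.Lib.MP_6bc78b_nt.GP.Iface
import Pool.Agent.Lib.MP_6bc78b_nt.H11.Window

/-! RHB: `ζ'/ζ` to the right of the critical line (RH). -/

set_option autoImplicit false

open Complex Filter Topology Set

namespace Pool.Agent.Lib.MP_6bc78b_nt.GP.H79

open Pool.Agent.Lib.MP_6bc78b_nt.GP Pool.Agent.Lib.MP_6bc78b_nt.H11

/-- local bound near every point of the closed strip `1/2 ≤ Re s ≤ 3/4`. -/
lemma logDeriv_local (hRH : RiemannHypothesis) {z : ℂ} (h1 : 1 / 2 ≤ z.re) (h2 : z.re ≤ 3 / 4) :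
    ∃ C : ℝ, ∀ᶠ s in 𝓝 z, 1 / 2 < s.re → s.re ≤ 3 / 4 →
      ‖logDeriv riemannZeta s‖ * (s.re - 1 / 2) ≤ C := by
  have hz1 : z ≠ 1 := by
    intro h; rw [h] at h2; norm_num at h2
  have hev : ∀ᶠ s in 𝓝 z, s ≠ 1 := isOpen_compl_singleton.mem_nhds hz1
  have han : AnalyticAt ℂ riemannZeta z := by
    rw [Complex.analyticAt_iff_eventually_differentiableAt]
    filter_upwards [hev] with s hs using differentiableAt_riemannZeta hs
  have hnz : ¬ ∀ᶠ s in 𝓝 z, riemannZeta s = 0 := by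
    intro h0
    have htend : Tendsto (fun n : ℕ => z + ((1 / ((n : ℝ) + 1) : ℝ) : ℂ)) atTop (𝓝 z) := by
      have h := (tendsto_one_div_add_atTop_nhds_zero_nat (𝕜 := ℝ))
      have h' := (Complex.continuous_ofReal.tendsto (0 : ℝ)).comp h
      have h'' := h'.const_add z
      simpa [Function.comp_def] using h''
    obtain ⟨n, hn⟩ := (htend.eventually h0).exists
    refine zeta_ne_zero_of_RH hRH ?_ hn
    have hp : (0 : ℝ) < 1 / ((n : ℝ) + 1) := by positivity
    rw [Complex.add_re, Complex.ofReal_re]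
    linarith
  obtain ⟨m, g, hg, hg0, hm⟩ := (han.exists_eventuallyEq_pow_smul_nonzero_iff).mpr hnz
  have hgc : ∀ᶠ s in 𝓝 z, g s ≠ 0 := hg.continuousAt.eventually_ne hg0
  have hgd : ∀ᶠ s in 𝓝 z, DifferentiableAt ℂ g s :=
    (Complex.analyticAt_iff_eventually_differentiableAt).mp hg
  have hld : ContinuousAt (logDeriv g) z := by
    have : ContinuousAt (fun s => deriv g s / g s) z := hg.deriv.continuousAt.div hg.continuousAt hg0
    exact this
  have hbd : ∀ᶠ s in 𝓝 z, ‖logDeriv g s‖ < ‖logDeriv g z‖ + 1 := by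
    have h3 := hld.norm
    exact h3.eventually_lt_const (by linarith)
  have hmm : ∀ᶠ s in 𝓝 z, ∀ᶠ w in 𝓝 s, riemannZeta w = (w - z) ^ m • g w :=
    eventually_eventually_nhds.mpr hm
  refine ⟨m + (‖logDeriv g z‖ + 1), ?_⟩
  filter_upwards [hgc, hgd, hbd, hmm] with s s1 s2 s3 s4 t1 t2
  have hδ : 0 < s.re - 1 / 2 := by linarith
  have hδ1 : s.re - 1 / 2 ≤ 1 := by linarith
  have hL0 : 0 ≤ ‖logDeriv g s‖ := norm_nonneg _
  have heq : riemannZeta =ᶠ[𝓝 s] fun w => (w - z) ^ m * g w := by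
    filter_upwards [s4] with w hw
    rw [hw, smul_eq_mul]
  have hlde : logDeriv riemannZeta s = logDeriv (fun w => (w - z) ^ m * g w) s := by
    rw [logDeriv_apply, logDeriv_apply, heq.deriv_eq, heq.eq_of_nhds]
  rcases Nat.eq_zero_or_pos m with hm0 | hm0
  · subst hm0
    have e : logDeriv riemannZeta s = logDeriv g s := by
      rw [hlde]; simp
    rw [e]
    have : ‖logDeriv g s‖ * (s.re - 1 / 2) ≤ (‖logDeriv g z‖ + 1) * 1 :=
      mul_le_mul s3.le hδ1 hδ.le (by positivity)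
    simpa using this
  · have hz0 : riemannZeta z = 0 := by
      rw [hm.self_of_nhds]; simp [hm0.ne']
    have hzre : z.re = 1 / 2 := zero_re_of_RH hRH hz0 (by linarith)
    have hne : s - z ≠ 0 := by
      intro h
      have : s = z := sub_eq_zero.mp h
      rw [this, hzre] at hδ
      linarith
    have hdist : s.re - 1 / 2 ≤ ‖s - z‖ := by
      have h5 := Complex.re_le_norm (s - z)
      rwa [Complex.sub_re, hzre] at h5
    have hnp : 0 < ‖s - z‖ := norm_pos_iff.mpr hne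
    have e : logDeriv riemannZeta s = m / (s - z) + logDeriv g s := by
      rw [hlde, logDeriv_mul (f := fun w => (w - z) ^ m) (g := g) s (pow_ne_zero _ hne) s1
        (by fun_prop) s2]
      congr 1
      have h6 : HasDerivAt (fun w : ℂ => (w - z) ^ m) ((m : ℂ) * (s - z) ^ (m - 1) * 1) s :=
        ((hasDerivAt_id s).sub_const z).pow m
      rw [logDeriv_apply, h6.deriv]
      obtain ⟨k, rfl⟩ : ∃ k, m = k + 1 := ⟨m - 1, by omega⟩
      rw [Nat.add_sub_cancel, pow_succ]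
      field_simp
    rw [e]
    have h7 : ‖(m : ℂ) / (s - z) + logDeriv g s‖ ≤ m / ‖s - z‖ + ‖logDeriv g s‖ := by
      refine (norm_add_le _ _).trans ?_
      rw [norm_div, Complex.norm_natCast]
    have h8 : (m / ‖s - z‖) * (s.re - 1 / 2) ≤ m := by
      rw [div_mul_eq_mul_div, div_le_iff₀ hnp]
      gcongr
    have h9 : ‖logDeriv g s‖ * (s.re - 1 / 2) ≤ (‖logDeriv g z‖ + 1) * 1 :=
      mul_le_mul s3.le hδ1 hδ.le (by positivity)
    calc ‖(m : ℂ) / (s - z) + logDeriv g s‖ * (s.re - 1 / 2)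
        ≤ (m / ‖s - z‖ + ‖logDeriv g s‖) * (s.re - 1 / 2) := by gcongr
      _ = (m / ‖s - z‖) * (s.re - 1 / 2) + ‖logDeriv g s‖ * (s.re - 1 / 2) := by ring
      _ ≤ m + (‖logDeriv g z‖ + 1) := by linarith

lemma box_compact : IsCompact ((Icc (1 / 2 : ℝ) (3 / 4)) ×ℂ (Icc (-3 : ℝ) 3)) :=
  isCompact_Icc.reProdIm isCompact_Icc

lemma logDeriv_box (hRH : RiemannHypothesis) : ∃ C : ℝ, 0 < C ∧ ∀ s : ℂ, 1 / 2 < s.re →
    s.re ≤ 3 / 4 → |s.im| ≤ 3 → ‖logDeriv riemannZeta s‖ * (s.re - 1 / 2) ≤ C := by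
  have key : ∃ C : ℝ, ∀ s ∈ (Icc (1 / 2 : ℝ) (3 / 4)) ×ℂ (Icc (-3 : ℝ) 3), 1 / 2 < s.re →
      s.re ≤ 3 / 4 → ‖logDeriv riemannZeta s‖ * (s.re - 1 / 2) ≤ C := by
    refine box_compact.induction_on (p := fun S => ∃ C : ℝ, ∀ s ∈ S, 1 / 2 < s.re →
      s.re ≤ 3 / 4 → ‖logDeriv riemannZeta s‖ * (s.re - 1 / 2) ≤ C) ⟨0, by simp⟩ ?_ ?_ ?_
    · rintro S T hST ⟨C, hC⟩
      exact ⟨C, fun s hs => hC s (hST hs)⟩
    · rintro S T ⟨C, hC⟩ ⟨C', hC'⟩
      refine ⟨max C C', fun s hs h1 h2 => ?_⟩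
      rcases hs with hs | hs
      · exact (hC s hs h1 h2).trans (le_max_left _ _)
      · exact (hC' s hs h1 h2).trans (le_max_right _ _)
    · intro z hz
      rw [Complex.mem_reProdIm] at hz
      obtain ⟨C, hC⟩ := logDeriv_local hRH (z := z) hz.1.1 hz.1.2
      exact ⟨_, mem_nhdsWithin_of_mem_nhds hC, C, fun s hs h1 h2 => hs h1 h2⟩
  obtain ⟨C, hC⟩ := key
  refine ⟨max C 1, by positivity, fun s h1 h2 h3 => ?_⟩
  refine (hC s ?_ h1 h2).trans (le_max_left _ _)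
  rw [Complex.mem_reProdIm]
  exact ⟨⟨h1.le, h2⟩, abs_le.mp h3⟩

theorem rhb : RHBStatement := by
  intro hRH
  obtain ⟨C1, hC1, hbox⟩ := logDeriv_box hRH
  have hK : (0 : ℝ) < KZ := by unfold KZ; norm_num
  refine ⟨max C1 (Real.exp 1 * (2 * KZ)), by positivity, fun σ w h1 h2 => ?_⟩
  have hδ : 0 < σ - 1 / 2 := by linarith
  have hre : ((σ : ℂ) + w * I).re = σ := by simp
  have him : ((σ : ℂ) + w * I).im = w := by simp
  have hw : 0 ≤ |w| := abs_nonneg w
  have hlog1 : 1 ≤ Real.log (3 + |w|) := by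
    rw [Real.le_log_iff_exp_le (by linarith)]
    exact Real.exp_one_lt_d9.le.trans (by linarith)
  rw [le_div_iff₀ hδ]
  by_cases h3 : |w| ≤ 3
  · have h := hbox ((σ : ℂ) + w * I) (by rw [hre]; exact h1) (by rw [hre]; exact h2)
      (by rw [him]; exact h3)
    rw [hre] at h
    calc ‖logDeriv riemannZeta (σ + w * I)‖ * (σ - 1 / 2) ≤ C1 := h
      _ ≤ max C1 (Real.exp 1 * (2 * KZ)) * 1 := by rw [mul_one]; exact le_max_left _ _
      _ ≤ max C1 (Real.exp 1 * (2 * KZ)) * Real.log (3 + |w|) := by gcongr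
  · push Not at h3
    have h := DZ_pointwise hRH 1 (s := (σ : ℂ) + w * I) hδ (by linarith)
      (by rw [hre]; linarith) (by rw [hre]; linarith) (by rw [him]; exact h3.le)
    have e : DZ 1 ((σ : ℂ) + w * I) = logDeriv riemannZeta (σ + w * I) := by
      unfold DZ
      rw [iteratedDeriv_one, logDeriv_apply]
    rw [e, him, pow_one, Nat.factorial_one, Nat.cast_one, mul_one] at h
    have h5 : Real.log |w| ≤ Real.log (3 + |w|) := Real.log_le_log (by linarith) (by linarith)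
    calc ‖logDeriv riemannZeta (σ + w * I)‖ * (σ - 1 / 2)
        ≤ (Real.exp 1 * (2 * KZ * Real.log |w| / (σ - 1 / 2))) * (σ - 1 / 2) := by gcongr
      _ = Real.exp 1 * (2 * KZ) * Real.log |w| := by
          rw [mul_assoc, div_mul_cancel₀ _ hδ.ne']; ring
      _ ≤ Real.exp 1 * (2 * KZ) * Real.log (3 + |w|) := by gcongr
      _ ≤ max C1 (Real.exp 1 * (2 * KZ)) * Real.log (3 + |w|) := by
          gcongr
          exact le_max_right _ _

end Pool.Agent.Lib.MP_6bc78b_nt.GP.H79
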